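import Mathlib
import Pool.Agent.D0H91.GI.Mult

/-!
# Goldbach's problem for primes with generic indices, with the singular series, along arbitrary sequences

`p_m` denotes the `m`-th prime. For a list `l = [α₁, ..., α_a]` of positive reals and a prime `q` let
`ch l q` be the prime obtained from `q` by `q ↦ p_⌊α₁ q⌋`, then `q ↦ p_⌊α₂ q⌋`, ..., `q ↦ p_⌊α_a q⌋`
(`0` if some floor is `0`). If all `α_i` are `1` these are the `a`-primes of the problem.
`RD l l' n` is the set of pairs of primes `(q, q')` with `ch l q ≠ ch l' q'`, `ch l q + ch l' q' = n` (both positive).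

1. Let `f` be a polynomial with integer coefficients whose values `f(m)`, `m ≥ 0`, are even, `≥ 0` and strictly increasing
(for instance `f = 2 T`: all even numbers, or `f = 2 T ^ k`). For almost every pair of vectors `α ∈ (0, ∞) ^ a`,
`β ∈ (0, ∞) ^ b` the number of these pairs is `(1 + o(1)) sing n * n / (∏ α_i ∏ β_j (log n) ^ (a + b + 2))` for all
`n = f(m)`, `m ≤ N`, but at most `N / (log N) ^ A` (every `A`), where `sing` is the singular series of Goldbach's problem.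

2. Let `s` be ANY strictly increasing sequence of integers. For almost every pair of vectors, this asymptotic formula holds
for all `n = s m`, `m ≤ N`, but at most `N / (log N) ^ A`, if and only if the classical one (`a = b = 0`) does; if
`log (s m) ≥ m ^ δ`, also its validity for all but finitely many `m` is equivalent to the same for the classical formula.

3. Let `T` be ANY set, `l` ANY fixed list (for instance a genuine chain of the problem), and let `RT T l n` be the set of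
primes `q` with `0 < ch l q < n` and `n - ch l q ∈ T`. For almost every `α`: for all `n = s m` with few exceptions (finitely
many if `log (s m) ≥ m ^ δ`), one more innermost factor `α` divides the number of representations by `α log n`,
asymptotically, up to an error `n / (log n) ^ A` (every `A`).

4. If `T` is a set of primes with at least `x / (log x) ^ A` elements up to `x`, for instance the set of the primes of prime
index, for almost every `α`: almost all multiples `n ∈ (x, 2 x]` of the primorial of `y ≍ log log x` are `t + p_⌊α q⌋`,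
`t ∈ T`, `q` prime, in at least the expected number of ways.
-/

set_option autoImplicit false

namespace Pool.Agent.Results.MP_778b46_nt.GenericIndices

open MeasureTheory Filter Polynomial
open Pool.Agent.D0H91.GI (ch RD RT Few BadS Fin' cnt)
open Pool.Agent.H560R3.GB (sing energy)
open Pool.Agent.Results.MP_5d7b92_nt.AlmostAllMultiples (V)

/-- the formula of Hardy and Littlewood, up to a relative error `ε` -/
def Formula (l l' : List ℝ) (ε : ℝ) (n : ℕ) : Prop :=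
  |(Nat.card (RD l l' n) : ℝ) * (l.prod * l'.prod) * Real.log n ^ (l.length + l'.length + 2) - sing n * n| ≤ ε * (sing n * n)

/-- the effect of one more innermost factor on the number of representations `n = ch l q + t`, `t ∈ T` -/
def Close (T : Set ℕ) (α : ℝ) (l : List ℝ) (ε : ℝ) (A n : ℕ) : Prop :=
  |α * Real.log n * Nat.card (RT T (α :: l) n) - Nat.card (RT T l n)| ≤ ε * Nat.card (RT T l n) + n / Real.log n ^ A

/-- faster than every polynomial: `log (s m) ≥ m ^ δ` for large `m`, for some `δ > 0` -/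
def Fast (s : ℕ → ℕ) : Prop := ∃ δ : ℝ, 0 < δ ∧ ∀ᶠ m : ℕ in atTop, (m : ℝ) ^ δ ≤ Real.log (s m)

/-- even numbers of nearly minimal additive energy (used in the proof only) -/
def Thin (s : ℕ → ℕ) : Prop := (∀ m, Even (s m)) ∧ ∃ h C : ℕ, 1 ≤ h ∧
  ∀ᶠ x : ℕ in atTop, (energy h x s : ℝ) * s x ≤ Real.log (s x) ^ C * (x : ℝ) ^ (2 * h)

/-- almost all multiples of small primorials have at least the expected number of representations -/
def Multiples (T : Set ℕ) (α : ℝ) : Prop :=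
  ∀ (C : ℕ) (ε : ℝ), 0 < ε → ε ≤ 1 → ∃ K₀ : ℕ, ∀ K₁ : ℕ, ∃ x₀ : ℕ, ∀ x : ℕ, x₀ ≤ x →
    ∀ y : ℕ, K₀ * Real.log (Real.log x) ≤ y → y ≤ K₁ * Real.log (Real.log x) →
    ∀ g₀ G : ℕ, x ≤ primorial y * g₀ → primorial y * (g₀ + G) ≤ 2 * x → (x : ℝ) ≤ primorial y * G * Real.log x ^ C →
    (Nat.card {g : ℕ | 1 ≤ g ∧ g ≤ G ∧ (Nat.card (RT T [α] (primorial y * (g₀ + g))) : ℝ) <
      (1 - ε) * (cnt T x / (V y * α * Real.log x ^ 2))} : ℝ) ≤ ε * G

theorem bad_iff (s : ℕ → ℕ) {a b : ℕ} (v : Fin a → ℝ) (w : Fin b → ℝ) (ε : ℝ) :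
    BadS s (a + b + 2) (List.ofFn v) (List.ofFn w) ε = fun m => ¬ Formula (List.ofFn v) (List.ofFn w) ε (s m) := by
  funext m
  unfold BadS Formula
  rw [List.length_ofFn, List.length_ofFn]

theorem bad_nil (s : ℕ → ℕ) (ε : ℝ) : BadS s 2 [] [] ε = fun m => ¬ Formula [] [] ε (s m) := rfl

theorem result :
    (∀ f : ℤ[X], StrictMono (fun m : ℕ => f.eval (m : ℤ)) → 0 ≤ f.eval 0 → (∀ m : ℕ, Even (f.eval (m : ℤ))) →
      ∀ a b : ℕ, ∀ᵐ p : (Fin a → ℝ) × (Fin b → ℝ), (∀ i, 0 < p.1 i) → (∀ j, 0 < p.2 j) →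
      ∀ ε : ℝ, 0 < ε → Few fun m => ¬ Formula (List.ofFn p.1) (List.ofFn p.2) ε (f.eval (m : ℤ)).toNat) ∧
    (∀ s : ℕ → ℕ, StrictMono s → ∀ a b : ℕ, ∀ᵐ p : (Fin a → ℝ) × (Fin b → ℝ), (∀ i, 0 < p.1 i) → (∀ j, 0 < p.2 j) →
      ((∀ ε : ℝ, 0 < ε → Few fun m => ¬ Formula [] [] ε (s m)) ↔
        (∀ ε : ℝ, 0 < ε → Few fun m => ¬ Formula (List.ofFn p.1) (List.ofFn p.2) ε (s m))) ∧
      (Fast s → ((∀ ε : ℝ, 0 < ε → ∀ᶠ m : ℕ in atTop, Formula [] [] ε (s m)) ↔
        (∀ ε : ℝ, 0 < ε → ∀ᶠ m : ℕ in atTop, Formula (List.ofFn p.1) (List.ofFn p.2) ε (s m))))) ∧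
    (∀ (T : Set ℕ) (s : ℕ → ℕ), StrictMono s → ∀ l : List ℝ, (∀ x ∈ l, 0 < x) → ∀ᵐ α : ℝ, 0 < α →
      (∀ ε : ℝ, 0 < ε → ∀ A : ℕ, Few fun m => ¬ Close T α l ε A (s m)) ∧
      (Fast s → ∀ ε : ℝ, 0 < ε → ∀ A : ℕ, ∀ᶠ m : ℕ in atTop, Close T α l ε A (s m))) ∧
    (∀ T : Set ℕ, (∀ p ∈ T, p.Prime) → (∃ A : ℕ, ∀ᶠ x : ℕ in atTop, (x : ℝ) ≤ cnt T x * Real.log x ^ A) →
      ∀ᵐ α : ℝ, 0 < α → Multiples T α) ∧
    (∀ᵐ α : ℝ, 0 < α → Multiples {p | p.Prime ∧ (Nat.primeCounting p).Prime} α) := by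
  have thin : ∀ s : ℕ → ℕ, StrictMono s → Thin s → ∀ a b : ℕ, ∀ᵐ p : (Fin a → ℝ) × (Fin b → ℝ),
      (∀ i, 0 < p.1 i) → (∀ j, 0 < p.2 j) →
      ∀ ε : ℝ, 0 < ε → Few fun m => ¬ Formula (List.ofFn p.1) (List.ofFn p.2) ε (s m) := by
    intro s hs ⟨hev, h, C, hh, hE⟩ a b
    filter_upwards [Pool.Agent.D0H91.GI.vec_seq hs (Pool.Agent.D0H91.GI.base_thin hs hev h C hh hE) a b] with p hp h1 h2 ε hε
    have h3 := hp h1 h2 ε hε
    rw [bad_iff] at h3
    exact h3
  have part4 : ∀ T : Set ℕ, (∀ p ∈ T, p.Prime) → (∃ A : ℕ, ∀ᶠ x : ℕ in atTop, (x : ℝ) ≤ cnt T x * Real.log x ^ A) →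
      ∀ᵐ α : ℝ, 0 < α → Multiples T α := by
    rintro T hT ⟨A, hA⟩
    filter_upwards [Pool.Agent.D0H91.GI.lawT Pool.Agent.D0H91.GI.small_few (s := fun m : ℕ => m) strictMono_id
      (Pool.Agent.D0H91.GI.step_few strictMono_id) T [] Pool.Agent.D0H91.GI.pos_nil] with α h1 h0
    exact Pool.Agent.D0H91.GI.mult T hT A hA α h0 (h1 h0)
  refine ⟨?_, ?_, ?_, part4, ?_⟩
  · intro f hf h0 he a b
    exact thin (fun m => (f.eval (m : ℤ)).toNat) (Pool.Agent.D0H91.GI.smono_poly f hf h0)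
      ⟨Pool.Agent.D0H91.GI.even_poly f hf h0 he,
        Pool.Agent.D0H91.GI.thin_poly f (Pool.Agent.D0H91.GI.deg_pos f hf) (Pool.Agent.D0H91.GI.lead_pos f hf h0) hf h0⟩ a b
  · intro s hs a b
    have h1 := Pool.Agent.D0H91.GI.equiv_few hs a b
    have h2 : Fast s → ∀ᵐ p : (Fin a → ℝ) × (Fin b → ℝ), (∀ i, 0 < p.1 i) → (∀ j, 0 < p.2 j) →
        ((∀ ε : ℝ, 0 < ε → ∀ᶠ m : ℕ in atTop, Formula [] [] ε (s m)) ↔
        (∀ ε : ℝ, 0 < ε → ∀ᶠ m : ℕ in atTop, Formula (List.ofFn p.1) (List.ofFn p.2) ε (s m))) := by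
      rintro ⟨δ, hδ, hf⟩
      filter_upwards [Pool.Agent.D0H91.GI.equiv_fin hs δ hδ hf a b] with p hp h3 h4
      have h5 := (Pool.Agent.D0H91.GI.nil_iff Pool.Agent.D0H91.GI.small_fin hs).symm.trans (hp h3 h4)
      simp only [bad_iff, bad_nil, Pool.Agent.D0H91.GI.Fin', not_not] at h5
      exact h5
    have h2' : ∀ᵐ p : (Fin a → ℝ) × (Fin b → ℝ), Fast s → (∀ i, 0 < p.1 i) → (∀ j, 0 < p.2 j) →
        ((∀ ε : ℝ, 0 < ε → ∀ᶠ m : ℕ in atTop, Formula [] [] ε (s m)) ↔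
        (∀ ε : ℝ, 0 < ε → ∀ᶠ m : ℕ in atTop, Formula (List.ofFn p.1) (List.ofFn p.2) ε (s m))) :=
      Filter.eventually_imp_distrib_left.2 h2
    filter_upwards [h1, h2'] with p hp h4 h6 h7
    refine ⟨?_, fun hf => h4 hf h6 h7⟩
    have h8 := (Pool.Agent.D0H91.GI.nil_iff Pool.Agent.D0H91.GI.small_few hs).symm.trans (hp h6 h7)
    simp only [bad_iff, bad_nil] at h8
    exact h8
  · intro T s hs l hl
    have h1 := Pool.Agent.D0H91.GI.lawT Pool.Agent.D0H91.GI.small_few hs (Pool.Agent.D0H91.GI.step_few hs) T l hl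
    have h2 : ∀ᵐ α : ℝ, Fast s → 0 < α → ∀ ε : ℝ, 0 < ε → ∀ A : ℕ, ∀ᶠ m : ℕ in atTop, Close T α l ε A (s m) := by
      refine Filter.eventually_imp_distrib_left.2 ?_
      rintro ⟨δ, hδ, hf⟩
      filter_upwards [Pool.Agent.D0H91.GI.lawT Pool.Agent.D0H91.GI.small_fin hs (Pool.Agent.D0H91.GI.step_fin hs δ hδ hf) T l hl]
        with α h3 h0 ε hε A
      have h4 := h3 h0 ε hε A
      simp only [Pool.Agent.D0H91.GI.Fin', not_not] at h4
      exact h4
    filter_upwards [h1, h2] with α h3 h4 h0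
    exact ⟨h3 h0, fun hf => h4 hf h0⟩
  · refine part4 _ (fun p hp => hp.1) ⟨3, ?_⟩
    obtain ⟨x1, hx1⟩ := Pool.Agent.Y877.SX.PPi_low
    filter_upwards [eventually_ge_atTop x1, Pool.Agent.D0H91.MG.ev_logge 8] with x h1 h2
    have h3 := hx1 x h1
    have h4 : (Pool.Agent.Y877.SX.PPi x).card ≤ cnt {p | p.Prime ∧ (Nat.primeCounting p).Prime} x := by
      unfold cnt
      rw [Nat.card_coe_set_eq, ← Set.ncard_coe_finset]
      apply Set.ncard_le_ncard _ ((Finset.range (x + 1)).finite_toSet.subset fun q hq => ?_)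
      · intro p hp
        rw [Finset.mem_coe] at hp
        unfold Pool.Agent.Y877.SX.PPi at hp
        rw [Finset.mem_filter, Finset.mem_Icc] at hp
        exact ⟨hp.2, hp.1.2⟩
      · rw [Finset.mem_coe, Finset.mem_range]
        exact Nat.lt_succ_of_le hq.2
    have h5 : ((Pool.Agent.Y877.SX.PPi x).card : ℝ) ≤ cnt {p | p.Prime ∧ (Nat.primeCounting p).Prime} x := by exact_mod_cast h4
    have hL0 : 0 < Real.log (x : ℝ) := by linarith
    rw [div_le_iff₀ (by positivity)] at h3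
    calc (x : ℝ) ≤ (Pool.Agent.Y877.SX.PPi x).card * (8 * Real.log x ^ 2) := h3
      _ ≤ cnt {p | p.Prime ∧ (Nat.primeCounting p).Prime} x * (Real.log x * Real.log x ^ 2) := by gcongr
      _ = _ := by ring

end Pool.Agent.Results.MP_778b46_nt.GenericIndices
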