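import Mathlib
import Pool.Agent.D0H91.UB.Ig
import Pool.Agent.D0H12.UB.Par

/-!
# Sums of an `a`-prime and a dilated `b`-prime: asymptotic formula for almost every dilation
-/

set_option autoImplicit false

open Finset MeasureTheory Filter

namespace Pool.Agent.Results.MP_778b46_nt.MetricAsymptotics

/-- The `i`-th `a`-prime: the `(a + 1)`-fold iterate of `k ↦ k`-th prime, applied to `i`. -/
noncomputable def ip (a i : ℕ) : ℕ := Nat.iterate (fun k : ℕ => Nat.nth Nat.Prime (k - 1)) (a + 1) i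

/-- The weight of the `a`-prime `m`: the product `log m · log π(m) · log π(π(m)) ⋯` (`a + 1` factors); `0` if `m` is
not an `a`-prime. -/
noncomputable def wt : ℕ → ℕ → ℝ
  | 0, m => if m.Prime then Real.log m else 0
  | a + 1, m => if m.Prime then Real.log m * wt a (Nat.primeCounting m) else 0

open Classical in
/-- The `l` with `0 < l < n` such that `n - l` is an `a`-prime and `⌊α l⌋` is a `b`-prime. -/
noncomputable def reps (a b : ℕ) (α : ℝ) (n : ℕ) : Finset ℕ :=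
  (Ico 1 n).filter fun l => (∃ x : ℕ, 0 < x ∧ ip a x = n - l) ∧ ∃ y : ℕ, 0 < y ∧ ip b y = ⌊α * l⌋₊

/-- The weights vanish outside the `a`-primes and are `(log m) ^ (a + 1)` up to a factor `1 - ε` at the large ones. -/
def WeightsOk : Prop := ∀ a : ℕ, (∀ m : ℕ, 0 ≤ wt a m ∧ (wt a m ≠ 0 → ∃ i : ℕ, 0 < i ∧ ip a i = m)) ∧
  ∀ ε : ℝ, 0 < ε → ∃ m₀ : ℕ, ∀ m : ℕ, m₀ ≤ m → (∃ i : ℕ, 0 < i ∧ ip a i = m) →
    (1 - ε) * Real.log m ^ (a + 1) ≤ wt a m ∧ wt a m ≤ Real.log m ^ (a + 1)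

theorem wt_eq (a : ℕ) : wt a = Pool.Agent.D0H91.UB.WP a := by
  induction a with
  | zero =>
    funext m
    simp [wt, Pool.Agent.D0H91.UB.WP]
  | succ a ih =>
    funext m
    simp [wt, Pool.Agent.D0H91.UB.WP, ih]

theorem reps_eq (a b : ℕ) (α : ℝ) (n : ℕ) : reps a b α n = Pool.Agent.D0H91.UB.Rs a b α n := rfl

/-- For almost every real `α > 0` and all `a, b ≥ 0`: for every `A`, all large `N` and all but at most
`N / (log N) ^ A` of the `n ≤ N`, `|∑_{l < n} wt a (n - l) wt b ⌊α l⌋ - n| ≤ N / (log N) ^ A`; and for every `ε > 0`, all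
but at most `N / (log N) ^ A` of the `n ≤ N` have between `(1 - ε) n / (log n) ^ (a + b + 2)` and
`(1 + ε) n / (log n) ^ (a + b + 2)` representations `n = u + l`, `u` an `a`-prime, `⌊α l⌋` a `b`-prime. -/
theorem result : WeightsOk ∧ ∀ᵐ α : ℝ, 0 < α → ∀ a b A : ℕ,
    (∃ N₀ : ℕ, ∀ N : ℕ, N₀ ≤ N → (((Icc 1 N).filter fun n : ℕ => (N : ℝ) / Real.log N ^ A <
      |∑ l ∈ Ico 1 n, wt a (n - l) * wt b ⌊α * l⌋₊ - n|).card : ℝ) ≤ N / Real.log N ^ A) ∧
    ∀ ε : ℝ, 0 < ε → ∃ N₀ : ℕ, ∀ N : ℕ, N₀ ≤ N → (((Icc 1 N).filter fun n : ℕ =>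
      ¬ ((1 - ε) * n ≤ (reps a b α n).card * Real.log n ^ (a + b + 2) ∧
        (reps a b α n).card * Real.log n ^ (a + b + 2) ≤ (1 + ε) * n)).card : ℝ) ≤ N / Real.log N ^ A := by
  constructor
  · intro a
    rw [wt_eq]
    refine ⟨fun m => ⟨Pool.Agent.D0H91.UB.wp_nonneg a m, Pool.Agent.D0H91.UB.wp_supp a m⟩, fun ε hε => ?_⟩
    obtain ⟨m0, hm0⟩ := Pool.Agent.D0H91.UB.wp_ge a (min ε 1) (by positivity) (min_le_right _ _)
    refine ⟨m0 + 1, fun m hm hi => ⟨?_, Pool.Agent.D0H91.UB.wp_le' a m (by omega)⟩⟩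
    refine le_trans ?_ (hm0 m (by omega) hi)
    apply mul_le_mul_of_nonneg_right
    · linarith [min_le_left ε 1]
    · have := Real.log_natCast_nonneg m
      positivity
  · have h : ∀ᵐ α : ℝ, ∀ a b : ℕ, 0 < α → ∀ A : ℕ, ∀ᶠ N : ℕ in atTop,
        (Pool.Agent.D0H91.UB.Ex (fun n => |Pool.Agent.D0H91.UB.Ws a b α n - n|) A N : ℝ) ≤ N / Real.log N ^ A := by
      rw [ae_all_iff]
      intro a
      rw [ae_all_iff]
      intro b
      exact Pool.Agent.D0H91.UB.ig_weights Pool.Agent.D0H12.UB.t_PAR a b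
    filter_upwards [h] with α hα hα0 a b A
    simp only [wt_eq, reps_eq]
    refine ⟨(hα a b hα0 A).exists_forall_of_atTop, fun ε hε => ?_⟩
    exact (Pool.Agent.D0H91.UB.ig_count a b hα0 (hα a b hα0) ε hε A).exists_forall_of_atTop

end Pool.Agent.Results.MP_778b46_nt.MetricAsymptotics
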