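import Pool.Agent.D0H24.IP.Cnt

/-!
# MP_778b46_nt: all pairs `(a, b)` in random models of the primes

Independent events `E m` choose the members `m ≥ 1` of a random set. The probabilities tend to zero
and are at least `1 / (log m) ^ κ` for all large `m` prime to a fixed `q`. Almost surely, for all
`a`, `b`, every large `N` (even if `q` is even) has at least `N / (log N) ^ K` representations as the
sum of an `(a + 1)`-fold iterated member and a different `(b + 1)`-fold iterated member.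
-/

set_option autoImplicit false

open MeasureTheory ProbabilityTheory Filter

namespace Pool.Agent.Results.MP_778b46_nt.RandomModels

/-- All large `N` are sums of two distinct iterated members, almost surely. -/
theorem result {Ω : Type*} [MeasurableSpace Ω] (P : Measure Ω) [IsProbabilityMeasure P]
    (E : ℕ → Set Ω) (hE : ∀ m, MeasurableSet (E m)) (hind : iIndepSet E P) (q κ : ℕ) (hq : 1 ≤ q)
    (hsmall : Tendsto (fun m => P.real (E m)) atTop (nhds 0))
    (hlarge : ∀ᶠ m : ℕ in atTop, Nat.Coprime m q → 1 / (Real.log m) ^ κ ≤ P.real (E m)) :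
    ∃ K : ℕ → ℕ → ℕ, ∀ᵐ ω ∂P, ∀ a b : ℕ, ∃ L : ℕ, ∀ N : ℕ, L ≤ N → (Even N ∨ Odd q) →
      (N : ℝ) / (Real.log N) ^ K a b ≤ Set.ncard {p : ℕ × ℕ | 1 ≤ p.1 ∧ 1 ≤ p.2 ∧
        (fun x => Nat.nth (fun m => 1 ≤ m ∧ ω ∈ E m) (x - 1))^[a + 1] p.1 ≠
          (fun x => Nat.nth (fun m => 1 ≤ m ∧ ω ∈ E m) (x - 1))^[b + 1] p.2 ∧
        (fun x => Nat.nth (fun m => 1 ≤ m ∧ ω ∈ E m) (x - 1))^[a + 1] p.1 +
          (fun x => Nat.nth (fun m => 1 ≤ m ∧ ω ∈ E m) (x - 1))^[b + 1] p.2 = N} := by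
  have h1 : ∀ a b : ℕ, ∃ K, ∀ᵐ ω ∂P, ∃ L : ℕ, ∀ N : ℕ, L ≤ N → (Even N ∨ Odd q) →
      (N : ℝ) / (Real.log N) ^ K ≤ Pool.Agent.D0H24.IP.R {m | 1 ≤ m ∧ ω ∈ E m} a b N :=
    fun a b => Pool.Agent.D0H24.IP.main_ev E hE hind q κ hq hsmall hlarge a b
  choose K hK using h1
  refine ⟨K, ?_⟩
  filter_upwards [ae_all_iff.2 fun a => ae_all_iff.2 fun b => hK a b] with ω hω a b
  exact hω a b

end Pool.Agent.Results.MP_778b46_nt.RandomModels
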