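import Pool.Agent.D0H51.SS.Low3
import Pool.Agent.Results.MP_778b46_nt.MinExponent

/-!
# MP_778b46_nt: representable even numbers in sparse sequences

For every real `h ≥ 1` and almost every real `α > 0`: for all `a`, `b` and all `ε > 0`, for all large `N` at least
`N / (log log N) ^ (b + ε)` of the integers `m ≤ N` are such that `2 ⌊α m ^ h⌋` is `(a, b)`-representable.

Proof: the starting result MinExponent for all integers, and the transfer of lower bounds for the counting function of
an arbitrary set to almost all sequences `⌊α m ^ h⌋` (`Pool.Agent.D0H51.SS.low_loglog`, from the universal sampling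
theorem of helper91).
-/

set_option autoImplicit false

namespace Pool.Agent.Results.MP_778b46_nt.SparseSequences

open Filter MeasureTheory Topology Finset

/-- `2 n` is `(a, b)`-representable: `2 n = p^(a+1)(u) + p^(b+1)(v)` with `u, v ≥ 1` and two distinct summands -/
def Rep (a b n : ℕ) : Prop :=
  ∃ u v : ℕ, 0 < u ∧ 0 < v ∧
    Nat.iterate (fun k : ℕ => Nat.nth Nat.Prime (k - 1)) (a + 1) u ≠
      Nat.iterate (fun k : ℕ => Nat.nth Nat.Prime (k - 1)) (b + 1) v ∧
    Nat.iterate (fun k : ℕ => Nat.nth Nat.Prime (k - 1)) (a + 1) u +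
      Nat.iterate (fun k : ℕ => Nat.nth Nat.Prime (k - 1)) (b + 1) v = 2 * n

open Classical in
/-- **Main result.** -/
theorem result (h : ℝ) (hh : 1 ≤ h) : ∀ᵐ α : ℝ, 0 < α → ∀ (a b : ℕ) (ε : ℝ), 0 < ε →
    ∀ᶠ N : ℕ in atTop, (N : ℝ) / Real.log (Real.log N) ^ ((b : ℝ) + ε) ≤
      (((Icc 1 N).filter (fun m : ℕ => Rep a b ⌊α * (m : ℝ) ^ h⌋₊)).card : ℝ) := by
  filter_upwards [Pool.Agent.D0H51.SS.low_loglog h hh
    (fun R => {n : ℕ | Rep (Nat.unpair R).1 (Nat.unpair R).2 n})] with α hα hα0 a b ε hε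
  have h1 := hα hα0 (Nat.pair a b) b (Nat.cast_nonneg b) (fun ε' hε' => ?_) ε hε
  · simp only [Set.mem_setOf_eq, Nat.unpair_pair] at h1
    exact h1
  filter_upwards [Pool.Agent.Results.MP_778b46_nt.MinExponent.result a b ε' hε'] with x hx
  refine hx.trans (Nat.cast_le.2 ?_)
  rw [← Set.ncard_coe_finset]
  refine Set.ncard_le_ncard ?_ (Finset.finite_toSet _)
  rintro n ⟨h7, h8⟩
  rw [Finset.mem_coe, Finset.mem_filter, Finset.mem_range]
  refine ⟨Nat.lt_succ_of_le h7, ?_⟩
  simp only [Set.mem_setOf_eq, Nat.unpair_pair]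
  exact h8

end Pool.Agent.Results.MP_778b46_nt.SparseSequences
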